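import Pool.Agent.Q66.RB.RatB

/-!
# Project RB, job RAT: blocks stable under all Galois automorphisms
-/

set_option autoImplicit false
set_option linter.unusedSectionVars false

open scoped Classical

noncomputable section

namespace Pool.Agent.Q66.RB

open Pool.Agent.H254R3.IN hiding NN
open Pool.Agent.Q17.WR
open Pool.Agent.Q17.AM
open Pool.Agent.Q17.RB
open Pool.Agent.Q17.DC (S_FMT)

/-- different blocks are disjoint -/
lemma block_disj {G : Type} [Group G] [Fintype G] {O : ValuationSubring ℂ} {B B' : Set (G → ℂ)}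
    (hB : IsBlock O B) (hB' : IsBlock O B') (h : B ≠ B') : Disjoint B B' := by
  rw [Set.disjoint_left]
  intro χ h1 h2
  exact h (block_ext hB hB' h1 h2 fun _ => rfl)

/-- the number of characters of height zero fixed by `s` over a family of Galois conjugates of a
block -/
lemma FX_count (hI : S_FXI) (hT : S_HT) {H A : Type} [Group H] [Fintype H] [Group A] [Fintype A]
    {p : ℕ} [Fact p.Prime] {O : ValuationSubring ℂ} (hp : (p : ℂ) ∈ O.nonunits)
    (C : Set (H → ℂ)) (k : A → ℕ) (hk : ∀ ω, Nat.Coprime (k ω) (Nat.card H))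
    (hγ : ∀ ω, IsBlock O (gc (k ω) C)) (hinj : Function.Injective fun ω => gc (k ω) C)
    (D : Subgroup H) (hD : ∀ ω, IsDefectGroup p O (gc (k ω) C) D) (s : ℂ ≃+* ℂ) (hs : St s C) :
    (Fxd (Irr0 p (Da A D) (FX fun ω => gc (k ω) C)) s).ncard =
      (Fxd (Irr0 p D C) s).ncard ^ Fintype.card A := by
  have hd : ∀ ω ω', ω ≠ ω' → Disjoint (gc (k ω) C) (gc (k ω') C) := fun ω ω' h =>
    block_disj (hγ ω) (hγ ω') fun h' => h (hinj h')
  have hs' : ∀ ω, ∀ χ ∈ gc (k ω) C, (fun g => s (χ g)) ∈ gc (k ω) C := by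
    rintro ω χ ⟨θ, h, rfl⟩
    exact ⟨fun g => s (θ g), (hs θ).mp h, rfl⟩
  rw [Fxd_FX hI hT hp (fun ω => gc (k ω) C) hγ hd D hD s hs', FX_ncard hI]
  · have h1 : ∀ ω, (Fxd (Irr0 p D (gc (k ω) C)) s).ncard = (Fxd (Irr0 p D C) s).ncard := by
      intro ω
      rw [gc_Fxd (hk ω), gc_ncard (hk ω)]
    rw [Finset.prod_congr rfl fun ω _ => h1 ω, Finset.prod_const, Finset.card_univ]
  · intro ω χ h
    exact (hγ ω).irr χ h.1.1
  · intro ω ω' h
    refine (hd ω ω' h).mono (fun χ h => h.1.1) (fun χ h => h.1.1)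

theorem t_RAT : S_FXI → S_FXB → S_TRA → S_FXC → S_GCB → S_HT → S_FMT → S_RAT := by
  rintro hI hFB hTR hFC hG hT hFM G _ _ p _ O hp B D b ⟨hB, hD, hb⟩
  have : Fintype (Pool.Agent.Q17.AM.NN D) := Fintype.ofFinite _
  have hn0 : NeZero (Nat.card G) := ⟨Nat.card_pos.ne'⟩
  have hnG : ∀ g : G, g ^ Nat.card G = 1 := fun g => pow_card_eq_one'
  have hnN : ∀ g : Pool.Agent.Q17.AM.NN D, g ^ Nat.card G = 1 := fun g =>
    Subtype.ext (by rw [Subgroup.coe_pow, hnG]; rfl)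
  have hcN : Nat.card (Pool.Agent.Q17.AM.NN D) ∣ Nat.card G := Subgroup.card_subgroup_dvd_card _
  have hcop : ∀ u : (ZMod (Nat.card G))ˣ,
      Nat.Coprime (u : ZMod (Nat.card G)).val (Nat.card G) := ZMod.val_coe_unit_coprime
  have hcopN : ∀ u : (ZMod (Nat.card G))ˣ,
      Nat.Coprime (u : ZMod (Nat.card G)).val (Nat.card (Pool.Agent.Q17.AM.NN D)) := fun u =>
    Nat.Coprime.coprime_dvd_right hcN (hcop u)
  have hDp : IsPGroup p D := defect_pgroup hD
  obtain ⟨A, iA, fA, π, hπs, hπk⟩ : ∃ (A : Type) (_ : CommGroup A) (_ : Fintype A)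
      (π : (ZMod (Nat.card G))ˣ →* A), Function.Surjective π ∧
        ∀ u, π u = 1 ↔ u ∈ stb (Nat.card G) hnG B :=
    ⟨(ZMod (Nat.card G))ˣ ⧸ stb (Nat.card G) hnG B, inferInstance, Fintype.ofFinite _,
      QuotientGroup.mk' _, QuotientGroup.mk'_surjective _, fun u => QuotientGroup.eq_one_iff u⟩
  let k : A → ℕ := fun a => ((Function.surjInv hπs a : (ZMod (Nat.card G))ˣ) :
    ZMod (Nat.card G)).val
  let β : A → Set (G → ℂ) := fun a => gc (k a) B
  let c : A → Set (Pool.Agent.Q17.AM.NN D → ℂ) := fun a => gc (k a) b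
  have hk : ∀ a, Nat.Coprime (k a) (Nat.card G) := fun a => hcop _
  have hkN : ∀ a, Nat.Coprime (k a) (Nat.card (Pool.Agent.Q17.AM.NN D)) := fun a => hcopN _
  have hβu : ∀ u : (ZMod (Nat.card G))ˣ, β (π u) = gu u B := by
    intro u
    have h1 : π (Function.surjInv hπs (π u)) = π u := Function.surjInv_eq hπs (π u)
    have h2 : (Function.surjInv hπs (π u))⁻¹ * u ∈ stb (Nat.card G) hnG B := by
      rw [← hπk, map_mul, map_inv, h1, inv_mul_cancel]
    change gu (Function.surjInv hπs (π u)) B = gu u B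
    conv_lhs => rw [← (show gu ((Function.surjInv hπs (π u))⁻¹ * u) B = B from h2)]
    rw [← gu_mul hnG, mul_inv_cancel_left]
  have hGB := fun u : (ZMod (Nat.card G))ˣ =>
    (hG G p O hp (u : ZMod (Nat.card G)).val (hcop u)).2 B hB
  have hβB : ∀ a, IsBlock O (β a) := fun a => (hGB _).1
  have hβD : ∀ a, IsDefectGroup p O (β a) D := fun a => ((hGB _).2.1 D hD).1
  have hβb : ∀ a, IsBrauerCorrespondent p O D (β a) (c a) := fun a =>
    ((hGB _).2.1 D hD).2 b hb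
  have hcu : ∀ u : (ZMod (Nat.card G))ˣ, c (π u) = gu u b := by
    intro u
    refine (hFM G p O hp D hDp (β (π u)) (hβB _)).2.2 _ _ (hβb _) ?_
    rw [hβu]
    exact ((hGB u).2.1 D hD).2 b hb
  have hβinj : Function.Injective β := by
    intro a a' h
    obtain ⟨u, rfl⟩ := hπs a
    obtain ⟨v, rfl⟩ := hπs a'
    rw [hβu, hβu] at h
    have h1 : gu (v⁻¹ * u) B = B := by
      rw [gu_mul hnG, h, ← gu_mul hnG, inv_mul_cancel, gu_one hnG]
    have h2 := (hπk (v⁻¹ * u)).mpr h1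
    rw [map_mul, map_inv, inv_mul_eq_one] at h2
    exact h2.symm
  obtain ⟨hF1, hF2, -⟩ := hFB G A p O hp β hβB hβinj D hβD
  obtain ⟨e, he1, he2⟩ := hTR G A D
  obtain ⟨hcinj, hcor⟩ := hFC G A p O hp β hβB hβinj D hβD c hβb e he1 he2
  have hcB : ∀ a, IsBlock O (c a) := fun a => (hβb a).1
  have hcD : ∀ a, IsDefectGroup p O (c a) (D.subgroupOf (Pool.Agent.Q17.AM.NN D)) :=
    fun a => (hβb a).2.1
  -- powers
  have hpow : ∀ s : ℂ ≃+* ℂ, ∃ u : (ZMod (Nat.card G))ˣ,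
      (∀ ω, ∀ χ ∈ β ω, ∀ g, s (χ g) = χ (g ^ (u : ZMod (Nat.card G)).val)) ∧
      ∀ ω, ∀ χ ∈ c ω, ∀ g, s (χ g) = χ (g ^ (u : ZMod (Nat.card G)).val) := by
    intro s
    obtain ⟨u, hu⟩ := exists_unit (n := Nat.card G) s
    refine ⟨u, fun ω χ hχ g => ?_, fun ω χ hχ g => ?_⟩
    · exact ((hG G p O hp (u : ZMod (Nat.card G)).val (hcop u)).2 (β ω) (hβB ω)).2.2 s hu χ hχ g
    · refine ((hG (Pool.Agent.Q17.AM.NN D) p O hp (u : ZMod (Nat.card G)).val (hcopN u)).2
        (c ω) (hcB ω)).2.2 s (fun ζ hζ => hu ζ ?_) χ hχ g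
      obtain ⟨m, hm⟩ := hcN
      rw [hm, pow_mul, hζ, one_pow]
  have hg1 : Gst (FX β) := FX_gst hnG π hπs B β hβu fun s => by
    obtain ⟨u, h1, -⟩ := hpow s
    exact ⟨u, h1⟩
  have hg2 : Gst (FX c) := FX_gst hnN π hπs b c hcu fun s => by
    obtain ⟨u, -, h1⟩ := hpow s
    exact ⟨u, h1⟩
  refine ⟨A, iA, fA, β, {θ | (fun x => θ (e x)) ∈ FX c}, ?_, ⟨hF1, hF2, hcor⟩, hg1, ?_, ?_, ?_⟩
  · have h1 := hβu 1
    rw [map_one, gu_one hnG] at h1
    exact h1
  · intro s θ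
    exact hg2 s (fun x => θ (e x))
  · rw [FX_ncard hI β (fun ω => (hβB ω).irr) fun ω ω' h =>
      block_disj (hβB ω) (hβB ω') fun h' => h (hβinj h')]
    rw [Finset.prod_congr rfl fun ω _ => gc_ncard (hk ω) B, Finset.prod_const, Finset.card_univ]
  · intro s hsB hsb
    refine ⟨FX_count hI hT hp B k hk hβB hβinj D hβD s hsB, ?_⟩
    rw [← FX_count hI hT hp b k hkN hcB hcinj (D.subgroupOf (Pool.Agent.Q17.AM.NN D)) hcD s hsb]
    have hidx : (Da A (D.subgroupOf (Pool.Agent.Q17.AM.NN D))).index =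
        ((Da A D).subgroupOf (Pool.Agent.Q17.AM.NN (Da A D))).index := by
      rw [← Subgroup.index_comap_of_surjective
        ((Da A D).subgroupOf (Pool.Agent.Q17.AM.NN (Da A D))) (f := e.toMonoidHom) e.surjective]
      congr 1
      ext z
      rw [Subgroup.mem_comap, Subgroup.mem_subgroupOf]
      change (z.right = 1 ∧ ∀ ω, z.left ω ∈ D.subgroupOf (Pool.Agent.Q17.AM.NN D)) ↔
        ((e z : Wr G A A).right = 1 ∧ ∀ ω, (e z : Wr G A A).left ω ∈ D)
      rw [he1]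
      refine and_congr_right fun _ => forall_congr' fun ω => ?_
      rw [he2, Subgroup.mem_subgroupOf]
    have hinjE : Function.Injective (fun (θ : Pool.Agent.Q17.AM.NN (Da A D) → ℂ) =>
        fun x => θ (e x)) := by
      intro θ θ' h
      funext y
      obtain ⟨x, rfl⟩ := e.surjective y
      exact congrFun h x
    rw [← Set.ncard_image_of_injective _ hinjE]
    congr 1
    ext χ
    constructor
    · rintro ⟨θ, ⟨⟨h1, m, h2, h3⟩, h4⟩, rfl⟩
      refine ⟨⟨h1, m, ?_, ?_⟩, fun g => h4 (e g)⟩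
      · rw [h2]
        exact congrArg θ (map_one e).symm
      · rw [h3, hidx]
    · rintro ⟨⟨h1, m, h2, h3⟩, h4⟩
      refine ⟨fun y => χ (e.symm y), ⟨⟨?_, m, ?_, ?_⟩, fun g => h4 (e.symm g)⟩, ?_⟩
      · change (fun x => χ (e.symm (e x))) ∈ FX c
        simp only [MulEquiv.symm_apply_apply]
        exact h1
      · rw [h2]
        exact congrArg χ (map_one e.symm).symm
      · rw [h3, hidx]
      · funext x
        exact congrArg χ (e.symm_apply_apply x)

end Pool.Agent.Q66.RB
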