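import Pool.Agent.Q66.RB.Base
import Pool.Agent.Q166.AM.COR

/-!
# Project RB, job FXC: the Brauer correspondent of `FX β`
-/

set_option autoImplicit false

open scoped Classical

noncomputable section

namespace Pool.Agent.Q66.RB

open Pool.Agent.H254R3.IN hiding NN
open Pool.Agent.Q17.WR
open Pool.Agent.Q17.AM
open Pool.Agent.Q17.RB
open Pool.Agent.Q166.AM (group_mem fs red_prod)

/-- two blocks with congruent central characters are equal -/
lemma block_ext {G : Type} [Group G] [Fintype G] {O : ValuationSubring ℂ} {B B' : Set (G → ℂ)}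
    (hB : IsBlock O B) (hB' : IsBlock O B') {χ χ' : G → ℂ} (h : χ ∈ B) (h' : χ' ∈ B')
    (hc : ∀ x, red O (omega χ x) = red O (omega χ' x)) : B = B' := by
  have hi := hB.irr
  have hi' := hB'.irr
  have key : ∀ (C C' : Set (G → ℂ)), IsBlock O C → IsBlock O C' → ∀ θ ∈ C, ∀ θ' ∈ C',
      (∀ x, red O (omega θ x) = red O (omega θ' x)) → C ⊆ C' := by
    intro C C' hC hC' θ hθ θ' hθ' hcc ψ hψ
    have h1 : ∀ x, red O (omega ψ x) = red O (omega θ' x) := fun x =>
      (hC.red_eq hψ hθ x).trans (hcc x)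
    have hψi := hC.irr ψ hψ
    have hθi := hC'.irr θ' hθ'
    obtain ⟨χ₀, h0, rfl⟩ := hC'
    refine ⟨hψi, fun x => ?_⟩
    rw [← red_eq_iff (hψi.omega_mem O x) (h0.omega_mem O x), h1 x]
    exact (red_eq_iff (hθi.omega_mem O x) (h0.omega_mem O x)).mpr (hθ'.2 x)
  exact Set.Subset.antisymm (key B B' hB hB' χ h χ' h' hc)
    (key B' B hB' hB χ' h' χ h fun x => (hc x).symm)

/-- grouping of the sum over the conjugates of an element of the base group by the families of
classes -/
lemma grp {G A H : Type} [Group G] [Fintype G] [Group A] [Fintype A] [Fintype H] (ψ : H → G)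
    (F : A → H → ℂ) (k : A → G) :
    ∑ m : A → H, (if ∃ a : A, ∀ ω, IsConj (k (a * ω)) (ψ (m ω)) then ∏ ω, F ω (m ω) else 0) =
      ∑ K : A → ConjClasses G, if ∃ a : A, ∀ ω, ConjClasses.mk (k (a * ω)) = K ω then
        ∏ ω, ∑ z : H, (if ConjClasses.mk (ψ z) = K ω then F ω z else 0) else 0 := by
  have h1 : ∀ K : A → ConjClasses G, (∏ ω, ∑ z : H, (if ConjClasses.mk (ψ z) = K ω then F ω z
      else 0)) = ∑ m : A → H, if (fun ω => ConjClasses.mk (ψ (m ω))) = K then
        ∏ ω, F ω (m ω) else 0 := by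
    intro K
    rw [Finset.prod_univ_sum, Fintype.piFinset_univ]
    refine Finset.sum_congr rfl fun m _ => ?_
    split_ifs with h
    · exact Finset.prod_congr rfl fun ω _ => if_pos (congrFun h ω)
    · have h2 : ∃ ω, ConjClasses.mk (ψ (m ω)) ≠ K ω := by
        by_contra h3
        push Not at h3
        exact h (funext h3)
      obtain ⟨ω, hω⟩ := h2
      exact Finset.prod_eq_zero (Finset.mem_univ ω) (if_neg hω)
  have h2 : ∀ K : A → ConjClasses G, (if ∃ a : A, ∀ ω, ConjClasses.mk (k (a * ω)) = K ω then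
        ∏ ω, ∑ z : H, (if ConjClasses.mk (ψ z) = K ω then F ω z else 0) else 0) =
      ∑ m : A → H, if (fun ω => ConjClasses.mk (ψ (m ω))) = K then
        (if ∃ a : A, ∀ ω, ConjClasses.mk (k (a * ω)) = K ω then ∏ ω, F ω (m ω) else 0) else 0 := by
    intro K
    rw [h1 K]
    split_ifs with h
    · rfl
    · simp
  rw [Finset.sum_congr rfl fun K _ => h2 K, Finset.sum_comm]
  refine Finset.sum_congr rfl fun m _ => ?_
  rw [Finset.sum_ite_eq]
  simp only [Finset.mem_univ, if_true, ConjClasses.mk_eq_mk_iff_isConj]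

/-- the sum over the conjugates in the normaliser, written with classes -/
lemma cls_sum {G H : Type} [Group G] [Fintype H] (ψ : H → G) (F : H → ℂ) (x : G) :
    (∑ z : H, if ConjClasses.mk (ψ z) = ConjClasses.mk x then F z else 0) =
      ∑ᶠ y : {y : H // IsConj x (ψ y)}, F y := by
  rw [fs (fun y : H => IsConj x (ψ y)) F]
  refine Finset.sum_congr rfl fun z _ => ?_
  simp only [ConjClasses.mk_eq_mk_iff_isConj]
  by_cases h : IsConj (ψ z) x
  · rw [if_pos h, if_pos h.symm]
  · rw [if_neg h, if_neg (fun h' => h h'.symm)]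

theorem t_FXC : S_ZPR → S_FXI → S_FXB → S_FXC := by
  intro _ _ hFB G A _ _ _ _ p _ O hp β hβ hinj D hD b hb e he1 he2
  have : Fintype (Pool.Agent.Q17.AM.NN D) := Fintype.ofFinite _
  have : Fintype (Pool.Agent.Q17.AM.NN (Da A D)) := Fintype.ofFinite _
  have hbB : ∀ ω, IsBlock O (b ω) := fun ω => (hb ω).1
  -- the congruence between the sums over the conjugates
  have hcon : ∀ ω, ∀ χ ∈ β ω, ∀ θ ∈ b ω, ∀ x : G,
      (∑ᶠ y : {y : Pool.Agent.Q17.AM.NN D // IsConj x (y : G)}, θ y / θ 1) ∈ O ∧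
      red O (omega χ x) =
        red O (∑ᶠ y : {y : Pool.Agent.Q17.AM.NN D // IsConj x (y : G)}, θ y / θ 1) := by
    intro ω χ hχ θ hθ x
    have h1 : (∑ᶠ y : {y : Pool.Agent.Q17.AM.NN D // IsConj x (y : G)}, θ y / θ 1) ∈ O := by
      rw [fs (fun y : Pool.Agent.Q17.AM.NN D => IsConj x (y : G)) (fun y => θ y / θ 1)]
      refine group_mem ((hbB ω).irr _ hθ)
        (fun z : Pool.Agent.Q17.AM.NN D => IsConj x (z : G)) ?_
      intro z z' h hz
      exact IsConj.trans hz ((Pool.Agent.Q17.AM.NN D).subtype.map_isConj h)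
    exact ⟨h1, (red_eq_iff (((hβ ω).irr _ hχ).omega_mem O x) h1).mpr ((hb ω).2.2 χ hχ θ hθ x)⟩
  have hbinj : Function.Injective b := by
    intro ω ω' h
    obtain ⟨χ, hχ⟩ := (hβ ω).nonempty
    obtain ⟨χ', hχ'⟩ := (hβ ω').nonempty
    obtain ⟨θ, hθ⟩ := (hbB ω).nonempty
    have hθ' : θ ∈ b ω' := h ▸ hθ
    exact hinj (block_ext (hβ ω) (hβ ω') hχ hχ' fun x =>
      ((hcon ω χ hχ θ hθ x).2).trans ((hcon ω' χ' hχ' θ hθ' x).2).symm)
  refine ⟨hbinj, ?_⟩
  obtain ⟨hB1, hB2, hB3⟩ := hFB G A p O hp β hβ hinj D hD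
  obtain ⟨hb1, hb2, hb3⟩ := hFB (Pool.Agent.Q17.AM.NN D) A p O hp b hbB hbinj
    (D.subgroupOf (Pool.Agent.Q17.AM.NN D)) fun ω => (hb ω).2.1
  have hset : {θ : Pool.Agent.Q17.AM.NN (Da A D) → ℂ | (fun x => θ (e x)) ∈ FX b} =
      Pool.Agent.Q222.TC.tb e.symm (FX b) := by
    ext θ
    constructor
    · intro h
      refine ⟨fun x => θ (e x), h, ?_⟩
      funext y
      change θ y = θ (e (e.symm y))
      rw [e.apply_symm_apply]
    · rintro ⟨θ₀, h, rfl⟩
      change (fun x => θ₀ (e.symm (e x))) ∈ FX b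
      simpa using h
  rw [hset]
  refine ⟨Pool.Agent.Q222.TC.tb_block e.symm hb1, ?_, ?_⟩
  · have h1 := Pool.Agent.Q222.TC.tb_defect e.symm hb2
    have h2 : (Da A (D.subgroupOf (Pool.Agent.Q17.AM.NN D))).comap e.symm.toMonoidHom =
        (Da A D).subgroupOf (Pool.Agent.Q17.AM.NN (Da A D)) := by
      ext y
      obtain ⟨z, rfl⟩ := e.surjective y
      rw [Subgroup.mem_comap, Subgroup.mem_subgroupOf]
      change e.symm (e z) ∈ _ ↔ _
      rw [e.symm_apply_apply]
      change (z.right = 1 ∧ ∀ ω, z.left ω ∈ D.subgroupOf (Pool.Agent.Q17.AM.NN D)) ↔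
        ((e z : Wr G A A).right = 1 ∧ ∀ ω, (e z : Wr G A A).left ω ∈ D)
      rw [he1]
      refine and_congr_right fun _ => forall_congr' fun ω => ?_
      rw [he2, Subgroup.mem_subgroupOf]
    rw [← h2]
    exact h1
  · rintro χ hχ θ ⟨θ₀, hθ₀, rfl⟩ x
    have hχi : IsIrr χ := hB1.irr χ hχ
    have hθi : IsIrr θ₀ := hb1.irr θ₀ hθ₀
    let Q : Wr (Pool.Agent.Q17.AM.NN D) A A → Prop := fun z => IsConj x (e z : Wr G A A)
    have hQ : ∀ z z', IsConj z z' → Q z → Q z' := by
      intro z z' h hz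
      have h1 : IsConj (e z) (e z') := e.toMonoidHom.map_isConj h
      have h2 : IsConj ((e z : Wr G A A)) (e z' : Wr G A A) :=
        (Pool.Agent.Q17.AM.NN (Da A D)).subtype.map_isConj h1
      exact IsConj.trans hz h2
    have hfs : (∑ᶠ y : {y : Pool.Agent.Q17.AM.NN (Da A D) // IsConj x (y : Wr G A A)},
        (fun x => θ₀ (e.symm x)) y / (fun x => θ₀ (e.symm x)) 1) =
        ∑ z, if Q z then θ₀ z / θ₀ 1 else 0 := by
      rw [fs (fun y : Pool.Agent.Q17.AM.NN (Da A D) => IsConj x (y : Wr G A A))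
        (fun y => θ₀ (e.symm y) / θ₀ (e.symm 1)), ← Equiv.sum_comp e.toEquiv]
      refine Finset.sum_congr rfl fun z _ => ?_
      have h1 : e.symm (e.toEquiv z) = z := e.symm_apply_apply z
      rw [h1, map_one]
      rfl
    have hS : (∑ z, if Q z then θ₀ z / θ₀ 1 else 0) ∈ O := group_mem hθi Q hQ
    rw [hfs, ← red_eq_iff (hχi.omega_mem O x) hS]
    obtain ⟨f, hf, rfl⟩ := hχ
    obtain ⟨h, hh, rfl⟩ := hθ₀
    by_cases hx : x.right = 1
    · -- the sum over the conjugates in the group
      have hL : omega (nca f) x = ∑ K : A → ConjClasses G,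
          if ∃ a : A, ∀ ω, ConjClasses.mk (x.left (a * ω)) = K ω then
            ∏ ω, ∑ z : G, (if ConjClasses.mk z = K ω then f ω z / f ω 1 else 0) else 0 := by
        rw [(hB3 (nca f) ⟨f, hf, rfl⟩).2 x hx f hf rfl,
          fs (fun y : A → G => IsConj x (⟨y, 1⟩ : Wr G A A)) (fun y => prf f y / prf f 1),
          ← grp (fun z : G => z) (fun ω z => f ω z / f ω 1) x.left]
        refine Finset.sum_congr rfl fun m _ => ?_
        have h1 : IsConj x (⟨m, 1⟩ : Wr G A A) ↔ ∃ a : A, ∀ ω, IsConj (x.left (a * ω)) (m ω) := by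
          rw [isConj_base hx]
          exact ⟨fun h => h.2, fun h => ⟨rfl, h⟩⟩
        simp only [h1]
        refine if_congr Iff.rfl ?_ rfl
        rw [Finset.prod_div_distrib]
        rfl
      have hR : (∑ z, if Q z then nca h z / nca h 1 else 0) = ∑ K : A → ConjClasses G,
          if ∃ a : A, ∀ ω, ConjClasses.mk (x.left (a * ω)) = K ω then
            ∏ ω, ∑ z : Pool.Agent.Q17.AM.NN D, (if ConjClasses.mk (z : G) = K ω then
              h ω z / h ω 1 else 0) else 0 := by
        have h3 : ∀ m : A → Pool.Agent.Q17.AM.NN D,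
            Q (⟨m, 1⟩ : Wr (Pool.Agent.Q17.AM.NN D) A A) ↔
              ∃ a : A, ∀ ω, IsConj (x.left (a * ω)) (m ω : G) := by
          intro m
          change IsConj x (e ⟨m, 1⟩ : Wr G A A) ↔ _
          rw [isConj_base hx, he1]
          constructor
          · rintro ⟨-, a, h⟩
            refine ⟨a, fun ω => ?_⟩
            have := h ω
            rwa [he2] at this
          · rintro ⟨a, h⟩
            refine ⟨rfl, a, fun ω => ?_⟩
            rw [he2]
            exact h ω
        rw [sum_base]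
        · have e5 : (∑ m : A → Pool.Agent.Q17.AM.NN D,
              if Q (⟨m, 1⟩ : Wr (Pool.Agent.Q17.AM.NN D) A A) then
                nca h (⟨m, 1⟩ : Wr (Pool.Agent.Q17.AM.NN D) A A) /
                  nca h (1 : Wr (Pool.Agent.Q17.AM.NN D) A A) else 0) =
              ∑ m : A → Pool.Agent.Q17.AM.NN D,
              if ∃ a : A, ∀ ω, IsConj (x.left (a * ω)) (m ω : G) then
                nca h (⟨m, 1⟩ : Wr (Pool.Agent.Q17.AM.NN D) A A) /
                  nca h (1 : Wr (Pool.Agent.Q17.AM.NN D) A A) else 0 :=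
            Finset.sum_congr rfl fun m _ => if_congr (h3 m) rfl rfl
          have e6 := sum_shift h (fun ω => ((hbB ω).irr _ (hh ω)).one_ne)
            (fun m => ∃ a : A, ∀ ω, IsConj (x.left (a * ω)) (m ω : G)) (by
              intro a m
              constructor
              · rintro ⟨a', h'⟩
                refine ⟨a' * a, fun ω => ?_⟩
                rw [mul_assoc]
                exact h' (a * ω)
              · rintro ⟨a', h'⟩
                refine ⟨a' * a⁻¹, fun ω => ?_⟩
                have := h' (a⁻¹ * ω)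
                simp only [mul_inv_cancel_left] at this
                rwa [mul_assoc])
          rw [e5, ← grp (fun z : Pool.Agent.Q17.AM.NN D => (z : G))
              (fun ω z => h ω z / h ω 1) x.left]
          convert e6
        · intro z hz
          split_ifs
          · rw [nca_off h hz, zero_div]
          · rfl
      have hfac : ∀ ω (K : ConjClasses G),
          (∑ z : G, (if ConjClasses.mk z = K then f ω z / f ω 1 else 0)) ∈ O ∧
          (∑ z : Pool.Agent.Q17.AM.NN D, (if ConjClasses.mk (z : G) = K then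
              h ω z / h ω 1 else 0)) ∈ O ∧
          red O (∑ z : G, (if ConjClasses.mk z = K then f ω z / f ω 1 else 0)) =
            red O (∑ z : Pool.Agent.Q17.AM.NN D, (if ConjClasses.mk (z : G) = K then
              h ω z / h ω 1 else 0)) := by
        intro ω K
        obtain ⟨y, rfl⟩ := ConjClasses.mk_surjective K
        rw [cls_sum (fun z : G => z) (fun z => f ω z / f ω 1) y,
          cls_sum (fun z : Pool.Agent.Q17.AM.NN D => (z : G)) (fun z => h ω z / h ω 1) y,
          Pool.Agent.Q222.TC.omega_sum ((hβ ω).irr _ (hf ω)) y]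
        have h4 := hcon ω (f ω) (hf ω) (h ω) (hh ω) y
        exact ⟨((hβ ω).irr _ (hf ω)).omega_mem O y, h4.1, h4.2⟩
      rw [hL, hR, red_sum, red_sum]
      · refine Finset.sum_congr rfl fun K _ => ?_
        split_ifs
        · rw [red_prod _ _ (fun ω _ => (hfac ω (K ω)).1),
            red_prod _ _ (fun ω _ => (hfac ω (K ω)).2.1)]
          exact Finset.prod_congr rfl fun ω _ => (hfac ω (K ω)).2.2
        · rfl
      · intro K _
        split_ifs
        · exact prod_mem fun ω _ => (hfac ω (K ω)).2.1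
        · exact O.zero_mem
      · intro K _
        split_ifs
        · exact prod_mem fun ω _ => (hfac ω (K ω)).1
        · exact O.zero_mem
    · rw [(hB3 (nca f) ⟨f, hf, rfl⟩).1 x hx]
      have h1 : (∑ z, if Q z then nca h z / nca h 1 else 0) = 0 := by
        refine Finset.sum_eq_zero fun z _ => ?_
        split_ifs with hz
        · have h2 : z.right ≠ 1 := by
            intro h3
            rw [← he1 z] at h3
            exact hx ((conjR_iff hz).mpr h3)
          rw [nca_off h h2, zero_div]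
        · rfl
      rw [h1]

end Pool.Agent.Q66.RB
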