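import Pool.Agent.Q66.RB.Fxc

/-!
# Project RB, job RAT: Galois conjugates of blocks, counting of characters
-/

set_option autoImplicit false
set_option linter.unusedSectionVars false

open scoped Classical

noncomputable section

namespace Pool.Agent.Q66.RB

open Pool.Agent.H254R3.IN hiding NN
open Pool.Agent.Q17.WR
open Pool.Agent.Q17.AM
open Pool.Agent.Q17.RB

section gcs

variable {H : Type} [Group H]

lemma gc_gc (k l : ℕ) (B : Set (H → ℂ)) : gc k (gc l B) = gc (k * l) B := by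
  ext χ
  constructor
  · rintro ⟨θ, ⟨θ₀, h0, rfl⟩, rfl⟩
    refine ⟨θ₀, h0, ?_⟩
    funext g
    rw [pow_mul]
  · rintro ⟨θ₀, h0, rfl⟩
    refine ⟨_, ⟨θ₀, h0, rfl⟩, ?_⟩
    funext g
    rw [pow_mul]

lemma gc_one (B : Set (H → ℂ)) : gc 1 B = B := by
  ext χ
  constructor
  · rintro ⟨θ, h, rfl⟩
    simpa only [pow_one] using h
  · intro h
    exact ⟨χ, h, by simp only [pow_one]⟩

lemma gc_congr {n : ℕ} (hn : ∀ g : H, g ^ n = 1) {k l : ℕ} (h : k ≡ l [MOD n])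
    (B : Set (H → ℂ)) : gc k B = gc l B := by
  have h1 : ∀ g : H, g ^ k = g ^ l := fun g =>
    pow_eq_pow_iff_modEq.mpr (h.of_dvd (orderOf_dvd_of_pow_eq_one (hn g)))
  simp only [gc, h1]

variable {n : ℕ} [NeZero n]

/-- the action of the units -/
def gu (u : (ZMod n)ˣ) (B : Set (H → ℂ)) : Set (H → ℂ) := gc (u : ZMod n).val B

lemma gu_mul (hn : ∀ g : H, g ^ n = 1) (u v : (ZMod n)ˣ) (B : Set (H → ℂ)) :
    gu (u * v) B = gu u (gu v B) := by
  unfold gu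
  rw [gc_gc]
  refine gc_congr hn ?_ B
  rw [Units.val_mul, ZMod.val_mul]
  exact Nat.mod_modEq _ _

lemma gu_one (hn : ∀ g : H, g ^ n = 1) (B : Set (H → ℂ)) : gu (1 : (ZMod n)ˣ) B = B := by
  unfold gu
  have h1 : gc ((1 : (ZMod n)ˣ) : ZMod n).val B = gc 1 B := by
    refine gc_congr hn ?_ B
    rw [Units.val_one, ZMod.val_one_eq_one_mod]
    exact Nat.mod_modEq _ _
  rw [h1, gc_one]

/-- the stabiliser of a set of functions -/
def stb (n : ℕ) [NeZero n] (hn : ∀ g : H, g ^ n = 1) (B : Set (H → ℂ)) : Subgroup (ZMod n)ˣ where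
  carrier := {u | gu u B = B}
  one_mem' := gu_one hn B
  mul_mem' := by
    intro u v hu hv
    change gu (u * v) B = B
    rw [gu_mul hn, (hv : gu v B = B), (hu : gu u B = B)]
  inv_mem' := by
    intro u hu
    change gu u⁻¹ B = B
    conv_lhs => rw [← (hu : gu u B = B)]
    rw [← gu_mul hn, inv_mul_cancel, gu_one hn]

lemma mem_stb (hn : ∀ g : H, g ^ n = 1) (B : Set (H → ℂ)) (u : (ZMod n)ˣ) :
    u ∈ stb n hn B ↔ gu u B = B := Iff.rfl

/-- an automorphism of the field acts on the roots of unity by a power -/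
lemma exists_unit (s : ℂ ≃+* ℂ) : ∃ k : (ZMod n)ˣ, ∀ ζ : ℂ, ζ ^ n = 1 →
    s ζ = ζ ^ (k : ZMod n).val := by
  have h1 := Complex.isPrimitiveRoot_exp n (NeZero.ne n)
  have h2 : IsPrimitiveRoot (s (Complex.exp (2 * Real.pi * Complex.I / n))) n :=
    h1.map_of_injective s.injective
  obtain ⟨i, hi, hc, he⟩ := h1.isPrimitiveRoot_iff.mp h2
  refine ⟨ZMod.unitOfCoprime i hc, fun ζ hζ => ?_⟩
  rw [ZMod.coe_unitOfCoprime, ZMod.val_natCast_of_lt hi]
  obtain ⟨j, -, rfl⟩ := h1.eq_pow_of_pow_eq_one hζ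
  rw [map_pow, ← he, ← pow_mul, ← pow_mul, mul_comm i j]

end gcs

section act

variable {G A : Type} [Group G] [Group A] [Fintype A]

lemma nca_s (s : ℂ ≃+* ℂ) (f : A → G → ℂ) :
    (fun x => s (nca f x)) = nca (fun ω g => s (f ω g)) := by
  funext x
  unfold nca
  split_ifs
  · rw [map_sum]
    refine Finset.sum_congr rfl fun a _ => ?_
    unfold prf
    rw [map_prod]
  · exact map_zero s

lemma nca_shift (f : A → G → ℂ) (a₀ : A) : nca (fun ω => f (a₀ * ω)) = nca f := by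
  funext x
  unfold nca
  split_ifs
  · rw [← Equiv.sum_comp (Equiv.mulLeft a₀) (fun a => prf (fun ω => f (a * ω)) x.left)]
    refine Finset.sum_congr rfl fun a _ => ?_
    simp only [Equiv.coe_mulLeft, mul_assoc]
  · rfl

end act

section gst

variable {n : ℕ} [NeZero n] {A H : Type} [Group A] [Fintype A] [Group H]

lemma FX_act (hn : ∀ g : H, g ^ n = 1) (π : (ZMod n)ˣ →* A) (hπ : Function.Surjective π)
    (C : Set (H → ℂ)) (γ : A → Set (H → ℂ)) (hγ : ∀ u : (ZMod n)ˣ, γ (π u) = gu u C)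
    (s : ℂ ≃+* ℂ) (k : (ZMod n)ˣ)
    (hs : ∀ ω, ∀ χ ∈ γ ω, ∀ g, s (χ g) = χ (g ^ (k : ZMod n).val)) :
    ∀ χ ∈ FX γ, (fun x => s (χ x)) ∈ FX γ := by
  rintro χ ⟨f, hf, rfl⟩
  refine ⟨fun ω g => s (f ((π k)⁻¹ * ω) g), fun ω => ?_, ?_⟩
  · obtain ⟨u, rfl⟩ := hπ ω
    have h1 : (π k)⁻¹ * π u = π (k⁻¹ * u) := by rw [map_mul, map_inv]
    change (fun g => s (f ((π k)⁻¹ * π u) g)) ∈ _
    rw [h1, hγ]
    have h2 := hf (π (k⁻¹ * u))
    have h3 : (fun g => s (f (π (k⁻¹ * u)) g)) ∈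
        gc (k : ZMod n).val (γ (π (k⁻¹ * u))) :=
      ⟨_, h2, funext fun g => hs _ _ h2 g⟩
    rw [hγ] at h3
    have h4 : gc (k : ZMod n).val (gu (k⁻¹ * u) C) = gu u C := by
      change gu k (gu (k⁻¹ * u) C) = gu u C
      rw [← gu_mul hn, mul_inv_cancel_left]
    rwa [h4] at h3
  · rw [nca_s, nca_shift (fun ω g => s (f ω g))]

lemma FX_gst (hn : ∀ g : H, g ^ n = 1) (π : (ZMod n)ˣ →* A) (hπ : Function.Surjective π)
    (C : Set (H → ℂ)) (γ : A → Set (H → ℂ)) (hγ : ∀ u : (ZMod n)ˣ, γ (π u) = gu u C)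
    (hs : ∀ s : ℂ ≃+* ℂ, ∃ k : (ZMod n)ˣ, ∀ ω, ∀ χ ∈ γ ω, ∀ g,
      s (χ g) = χ (g ^ (k : ZMod n).val)) : Gst (FX γ) := by
  intro s χ
  constructor
  · obtain ⟨k, hk⟩ := hs s
    exact FX_act hn π hπ C γ hγ s k hk χ
  · intro h
    obtain ⟨k, hk⟩ := hs s.symm
    have h1 := FX_act hn π hπ C γ hγ s.symm k hk _ h
    simpa using h1

end gst

end Pool.Agent.Q66.RB
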