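import Pool.Agent.Q17.RB.Stm

/-!
# The regular wreath product: conjugacy in the base group, values of the induced characters
-/

set_option autoImplicit false

open scoped Classical

noncomputable section

namespace Pool.Agent.Q66.RB

open Pool.Agent.H254R3.IN hiding NN
open Pool.Agent.Q17.WR
open Pool.Agent.Q17.AM
open Pool.Agent.Q17.RB

section conj

variable {G A : Type} [Group G] [Group A]

lemma mulL (x y : Wr G A A) (ω : A) : (x * y).left ω = x.left ω * y.left (x.right⁻¹ * ω) := rfl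

lemma invL (x : Wr G A A) (ω : A) : (x⁻¹).left ω = (x.left (x.right * ω))⁻¹ := by
  have h1 : (x⁻¹).left ω = (x.left ((x.right⁻¹)⁻¹ * ω))⁻¹ := rfl
  rw [h1, inv_inv]

lemma conjL (x y : Wr G A A) (hy : y.right = 1) (ω : A) :
    (x * y * x⁻¹).left ω = x.left ω * y.left (x.right⁻¹ * ω) * (x.left ω)⁻¹ := by
  rw [mulL, mulL, invL, SemidirectProduct.mul_right, hy, mul_one, mul_inv_cancel_left]

lemma conjR (x y : Wr G A A) : (x * y * x⁻¹).right = x.right * y.right * x.right⁻¹ := rfl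

lemma conjR_iff {x y : Wr G A A} (h : IsConj x y) : x.right = 1 ↔ y.right = 1 := by
  obtain ⟨g, rfl⟩ := isConj_iff.mp h
  rw [conjR]
  constructor
  · intro h1
    rw [h1, mul_one, mul_inv_cancel]
  · intro h1
    rw [mul_inv_eq_one] at h1
    exact mul_eq_left.mp h1

/-- conjugacy in the wreath product for elements of the base group -/
lemma isConj_base {x : Wr G A A} (hx : x.right = 1) (y : Wr G A A) :
    IsConj x y ↔ y.right = 1 ∧ ∃ a : A, ∀ ω, IsConj (x.left (a * ω)) (y.left ω) := by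
  constructor
  · intro h
    have h0 := (conjR_iff h).mp hx
    obtain ⟨g, rfl⟩ := isConj_iff.mp h
    refine ⟨h0, g.right⁻¹, fun ω => ?_⟩
    rw [conjL _ _ hx]
    exact isConj_iff.mpr ⟨g.left ω, rfl⟩
  · rintro ⟨hy, a, h⟩
    choose c hc using fun ω => isConj_iff.mp (h ω)
    refine isConj_iff.mpr ⟨⟨c, a⁻¹⟩, ?_⟩
    apply SemidirectProduct.ext
    · funext ω
      rw [conjL _ _ hx]
      simp only [inv_inv]
      exact hc ω
    · rw [conjR, hx, hy, mul_one, mul_inv_cancel]

end conj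

section vals

variable {G A : Type} [Group G] [Group A] [Fintype A]

lemma nca_base (f : A → G → ℂ) (m : A → G) :
    nca f (⟨m, 1⟩ : Wr G A A) = ∑ a : A, ∏ ω, f (a * ω) (m ω) := by
  unfold nca
  exact if_pos rfl

lemma nca_off (f : A → G → ℂ) {x : Wr G A A} (hx : x.right ≠ 1) : nca f x = 0 := by
  unfold nca
  exact if_neg hx

lemma nca_one (f : A → G → ℂ) : nca f (1 : Wr G A A) = (Fintype.card A : ℂ) * ∏ ω, f ω 1 := by
  have h1 : nca f (1 : Wr G A A) = ∑ a : A, ∏ ω, f (a * ω) 1 := nca_base f 1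
  have h2 : ∀ a : A, ∏ ω, f (a * ω) 1 = ∏ ω, f ω 1 := fun a =>
    Equiv.prod_comp (Equiv.mulLeft a) (fun ω => f ω 1)
  rw [h1, Finset.sum_congr rfl fun a _ => h2 a, Finset.sum_const, Finset.card_univ,
    nsmul_eq_mul]

lemma cardA_ne : (Fintype.card A : ℂ) ≠ 0 := by
  have : Nonempty A := ⟨1⟩
  exact_mod_cast Fintype.card_ne_zero

instance instFWr [Fintype G] : Fintype (Wr G A A) :=
  Fintype.ofEquiv _ SemidirectProduct.equivProd.symm

lemma sum_base [Fintype G] (F : Wr G A A → ℂ) (h : ∀ x, x.right ≠ 1 → F x = 0) :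
    ∑ x, F x = ∑ m : A → G, F ⟨m, 1⟩ := by
  rw [← Equiv.sum_comp (SemidirectProduct.equivProd.symm) F, Fintype.sum_prod_type_right,
    Finset.sum_eq_single 1]
  · rfl
  · intro b _ hb
    exact Finset.sum_eq_zero fun m _ => h _ hb
  · intro h1
    exact absurd (Finset.mem_univ _) h1

/-- the sum of the quotients of the values of an induced character over a set of functions which is
stable under the translations -/
lemma sum_shift [Fintype G] (h : A → G → ℂ) (h1 : ∀ ω, h ω 1 ≠ 0) (S : (A → G) → Prop)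
    (hS : ∀ (a : A) (m : A → G), S m ↔ S (fun ω => m (a * ω))) :
    ∑ m : A → G, (if S m then nca h (⟨m, 1⟩ : Wr G A A) / nca h (1 : Wr G A A) else 0) =
      ∑ m : A → G, if S m then ∏ ω, (h ω (m ω) / h ω 1) else 0 := by
  have hP : (∏ ω, h ω 1) ≠ 0 := Finset.prod_ne_zero_iff.mpr fun ω _ => h1 ω
  have hA : (Fintype.card A : ℂ) ≠ 0 := cardA_ne
  have e1 : ∀ m : A → G, (if S m then nca h (⟨m, 1⟩ : Wr G A A) / nca h (1 : Wr G A A) else 0) =
      (Fintype.card A : ℂ)⁻¹ * ∑ a : A, if S m then (∏ ω, h (a * ω) (m ω)) / ∏ ω, h ω 1 else 0 := by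
    intro m
    split_ifs
    · rw [nca_base, nca_one, ← Finset.sum_div]
      field_simp
    · rw [Finset.sum_const_zero, mul_zero]
  rw [Finset.sum_congr rfl fun m _ => e1 m, ← Finset.mul_sum, Finset.sum_comm]
  have e2 : ∀ a : A, (∑ m : A → G, if S m then (∏ ω, h (a * ω) (m ω)) / ∏ ω, h ω 1 else 0) =
      ∑ m : A → G, if S m then ∏ ω, (h ω (m ω) / h ω 1) else 0 := by
    intro a
    rw [← Equiv.sum_comp ((Equiv.mulLeft a).symm.arrowCongr (Equiv.refl G))]
    refine Finset.sum_congr rfl fun m _ => ?_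
    have e3 : ((Equiv.mulLeft a).symm.arrowCongr (Equiv.refl G)) m = fun ω => m (a * ω) := rfl
    have e4 : ∏ ω, h (a * ω) (m (a * ω)) = ∏ ω, h ω (m ω) :=
      Equiv.prod_comp (Equiv.mulLeft a) (fun ω => h ω (m ω))
    rw [e3, Finset.prod_div_distrib]
    by_cases h2 : S m
    · rw [if_pos h2, if_pos ((hS a m).mp h2)]
      simp only [e4]
    · rw [if_neg h2, if_neg (fun h3 => h2 ((hS a m).mpr h3))]
  rw [Finset.sum_congr rfl fun a _ => e2 a, Finset.sum_const, Finset.card_univ, nsmul_eq_mul,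
    inv_mul_cancel_left₀ hA]

end vals

end Pool.Agent.Q66.RB
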