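import Pool.Agent.Q66.RB.RatA

/-!
# Project RB, job RAT: counting of characters
-/

set_option autoImplicit false
set_option linter.unusedSectionVars false

open scoped Classical

noncomputable section

namespace Pool.Agent.Q66.RB

open Pool.Agent.H254R3.IN hiding NN
open Pool.Agent.Q17.WR
open Pool.Agent.Q17.AM
open Pool.Agent.Q17.RB

lemma FX_ncard (hI : S_FXI) {H A : Type} [Group H] [Fintype H] [Group A] [Fintype A]
    (X : A → Set (H → ℂ)) (hX : ∀ ω, ∀ χ ∈ X ω, IsIrr χ)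
    (hd : ∀ ω ω', ω ≠ ω' → Disjoint (X ω) (X ω')) : (FX X).ncard = ∏ ω, (X ω).ncard := by
  have h1 := (hI H A X hX hd).2
  let e : (∀ ω, X ω) → FX X := fun f => ⟨nca fun ω => (f ω : H → ℂ), fun ω => (f ω : H → ℂ),
    fun ω => (f ω).2, rfl⟩
  have he : Function.Bijective e := by
    constructor
    · intro f f' h
      have h2 := h1 (fun ω => (f ω : H → ℂ)) (fun ω => (f' ω : H → ℂ)) (fun ω => (f ω).2)
        (fun ω => (f' ω).2) (congrArg Subtype.val h)
      funext ω
      exact Subtype.ext (congrFun h2 ω)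
    · rintro ⟨χ, f, hf, rfl⟩
      exact ⟨fun ω => ⟨f ω, hf ω⟩, rfl⟩
  rw [← Nat.card_coe_set_eq, ← Nat.card_congr (Equiv.ofBijective e he), Nat.card_pi]
  exact Finset.prod_congr rfl fun ω _ => Nat.card_coe_set_eq _

lemma card_Wr {H A : Type} [Group H] [Group A] [Fintype A] :
    Nat.card (Wr H A A) = Nat.card H ^ Fintype.card A * Fintype.card A := by
  rw [Nat.card_congr SemidirectProduct.equivProd, Nat.card_prod, Nat.card_fun,
    Nat.card_eq_fintype_card (α := A)]

lemma card_Da {H A : Type} [Group H] [Group A] [Fintype A] (D : Subgroup H) :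
    Nat.card (Da A D) = Nat.card D ^ Fintype.card A := by
  have h1 : Nat.card (Da A D) = Nat.card (A → D) := by
    refine Nat.card_congr ⟨fun x ω => ⟨x.1.left ω, x.2.2 ω⟩,
      fun f => ⟨⟨fun ω => f ω, 1⟩, rfl, fun ω => (f ω).2⟩, fun x => ?_, fun f => rfl⟩
    apply Subtype.ext
    apply SemidirectProduct.ext
    · rfl
    · exact x.2.1.symm
  rw [h1, Nat.card_fun, Nat.card_eq_fintype_card (α := A)]

lemma index_Da {H A : Type} [Group H] [Fintype H] [Group A] [Fintype A] (D : Subgroup H) :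
    (Da A D).index = Fintype.card A * D.index ^ Fintype.card A := by
  have h1 := Subgroup.card_mul_index (Da A D)
  rw [card_Wr, card_Da, ← Subgroup.card_mul_index D, mul_pow] at h1
  have h2 : Nat.card D ^ Fintype.card A ≠ 0 := pow_ne_zero _ Nat.card_pos.ne'
  refine mul_left_cancel₀ h2 ?_
  rw [h1]
  ring

section fixed

variable {H A : Type} [Group H] [Fintype H] [Group A] [Fintype A] {p : ℕ} [Fact p.Prime]
  {O : ValuationSubring ℂ}

lemma Fxd_FX (hI : S_FXI) (hT : S_HT) (hp : (p : ℂ) ∈ O.nonunits) (γ : A → Set (H → ℂ))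
    (hγ : ∀ ω, IsBlock O (γ ω)) (hd : ∀ ω ω', ω ≠ ω' → Disjoint (γ ω) (γ ω')) (D : Subgroup H)
    (hD : ∀ ω, IsDefectGroup p O (γ ω) D) (s : ℂ ≃+* ℂ)
    (hs : ∀ ω, ∀ χ ∈ γ ω, (fun g => s (χ g)) ∈ γ ω) :
    Fxd (Irr0 p (Da A D) (FX γ)) s = FX fun ω => Fxd (Irr0 p D (γ ω)) s := by
  have hirr : ∀ ω, ∀ χ ∈ γ ω, IsIrr χ := fun ω => (hγ ω).irr
  have hinj := (hI H A γ hirr hd).2
  have hA : Fintype.card A ≠ 0 := by
    have : Nonempty A := ⟨1⟩
    exact Fintype.card_ne_zero
  have hDi : D.index ≠ 0 := Subgroup.index_ne_zero_of_finite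
  -- the height
  have key : ∀ (f : A → H → ℂ), (∀ ω, f ω ∈ γ ω) →
      ((∃ n : ℕ, (n : ℂ) = nca f (1 : Wr H A A) ∧
        n.factorization p = (Da A D).index.factorization p) ↔
      ∀ ω, ∃ n : ℕ, (n : ℂ) = f ω 1 ∧ n.factorization p = D.index.factorization p) := by
    intro f hf
    choose d hd0 hd1 using fun ω => (hirr ω _ (hf ω)).deg
    have e1 : ((Fintype.card A * ∏ ω, d ω : ℕ) : ℂ) = nca f (1 : Wr H A A) := by
      rw [nca_one, Nat.cast_mul, Nat.cast_prod, Finset.prod_congr rfl fun ω _ => hd1 ω]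
    have e2 : (Fintype.card A * ∏ ω, d ω).factorization p =
        (Fintype.card A).factorization p + ∑ ω, (d ω).factorization p := by
      rw [Nat.factorization_mul hA (Finset.prod_ne_zero_iff.mpr fun ω _ => (hd0 ω).ne'),
        Nat.factorization_prod fun ω _ => (hd0 ω).ne']
      simp
    have e3 : (Da A D).index.factorization p =
        (Fintype.card A).factorization p + ∑ _ω : A, D.index.factorization p := by
      rw [index_Da, Nat.factorization_mul hA (pow_ne_zero _ hDi), Nat.factorization_pow]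
      simp
    have e4 : ∀ ω, D.index.factorization p ≤ (d ω).factorization p := fun ω =>
      hT H p O hp (γ ω) D (hγ ω) (hD ω) (f ω) (hf ω) (d ω) (hd1 ω)
    constructor
    · rintro ⟨n, hn, hn'⟩
      have h1 : n = Fintype.card A * ∏ ω, d ω := by
        have : (n : ℂ) = ((Fintype.card A * ∏ ω, d ω : ℕ) : ℂ) := by rw [hn, e1]
        exact_mod_cast this
      rw [h1, e2, e3] at hn'
      have h2 := Nat.add_left_cancel hn'
      intro ω
      refine ⟨d ω, hd1 ω, ?_⟩
      exact ((Finset.sum_eq_sum_iff_of_le fun i _ => e4 i).mp h2.symm ω (Finset.mem_univ ω)).symm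
    · intro h
      refine ⟨_, e1, ?_⟩
      rw [e2, e3]
      congr 1
      refine Finset.sum_congr rfl fun ω _ => ?_
      obtain ⟨n, hn, hn'⟩ := h ω
      have h1 : n = d ω := by
        have : (n : ℂ) = (d ω : ℂ) := by rw [hn, hd1]
        exact_mod_cast this
      rw [← h1, hn']
  ext χ
  constructor
  · rintro ⟨⟨⟨f, hf, rfl⟩, hn⟩, hfix⟩
    have h1 := (key f hf).mp hn
    have h2 : nca (fun ω g => s (f ω g)) = nca f := by
      rw [← nca_s]
      exact funext hfix
    have h3 := hinj _ f (fun ω => hs ω _ (hf ω)) hf h2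
    exact ⟨f, fun ω => ⟨⟨hf ω, h1 ω⟩, fun g => congrFun (congrFun h3 ω) g⟩, rfl⟩
  · rintro ⟨f, hf, rfl⟩
    refine ⟨⟨⟨f, fun ω => (hf ω).1.1, rfl⟩, (key f fun ω => (hf ω).1.1).mpr
      fun ω => (hf ω).1.2⟩, fun x => ?_⟩
    have h1 := congrFun (nca_s s f) x
    have h2 : (fun ω g => s (f ω g)) = f := funext fun ω => funext fun g => (hf ω).2 g
    rw [h2] at h1
    exact h1

end fixed

section conj

variable {H : Type} [Group H] [Fintype H]

lemma pow_inj {k : ℕ} (hk : Nat.Coprime k (Nat.card H)) {θ θ' : H → ℂ}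
    (h : (fun g => θ (g ^ k)) = fun g => θ' (g ^ k)) : θ = θ' := by
  funext g
  have h1 := congrFun h ((powCoprime hk.symm).symm g)
  have h2 : ((powCoprime hk.symm).symm g) ^ k = g := (powCoprime hk.symm).apply_symm_apply g
  simpa only [h2] using h1

lemma gc_ncard {k : ℕ} (hk : Nat.Coprime k (Nat.card H)) (B : Set (H → ℂ)) :
    (gc k B).ncard = B.ncard := by
  have h1 : gc k B = (fun θ : H → ℂ => fun g => θ (g ^ k)) '' B := by
    ext χ
    constructor
    · rintro ⟨θ, h, rfl⟩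
      exact ⟨θ, h, rfl⟩
    · rintro ⟨θ, h, rfl⟩
      exact ⟨θ, h, rfl⟩
  rw [h1]
  exact Set.ncard_image_of_injective B fun θ θ' h => pow_inj hk h

lemma gc_Fxd {k : ℕ} (hk : Nat.Coprime k (Nat.card H)) (p : ℕ) (D : Subgroup H)
    (B : Set (H → ℂ)) (s : ℂ ≃+* ℂ) :
    Fxd (Irr0 p D (gc k B)) s = gc k (Fxd (Irr0 p D B) s) := by
  ext χ
  constructor
  · rintro ⟨⟨⟨θ, h, rfl⟩, h2⟩, h3⟩
    refine ⟨θ, ⟨⟨h, ?_⟩, fun g => ?_⟩, rfl⟩
    · simpa only [one_pow] using h2
    · have h4 : ((powCoprime hk.symm).symm g) ^ k = g := (powCoprime hk.symm).apply_symm_apply g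
      have h5 := h3 ((powCoprime hk.symm).symm g)
      simpa only [h4] using h5
  · rintro ⟨θ, ⟨⟨h, h2⟩, h3⟩, rfl⟩
    refine ⟨⟨⟨θ, h, rfl⟩, ?_⟩, fun g => h3 _⟩
    simpa only [one_pow] using h2

end conj

end Pool.Agent.Q66.RB
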